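import Mathlib

set_option autoImplicit false

namespace Pool.Agent.H.MP_3dd297_al

variable {G Ω L : Type} [LinearOrder L] (v : Ω → G → L)

/-- Finite maps preserving all the orders. -/
def Ok (l : List (G × G)) : Prop := ∀ p ∈ l, ∀ q ∈ l, ∀ s, v s p.1 < v s q.1 ↔ v s p.2 < v s q.2

variable (pt : ∀ x y a b, ∃ c, ∀ s, v s c = if v s x < v s y then v s a else v s b)
  (dn : ∀ a b, ∃ c, ∀ s, v s a < v s b → v s a < v s c ∧ v s c < v s b)
  (up : ∀ a, ∃ c, ∀ s, v s a < v s c) (dw : ∀ a, ∃ c, ∀ s, v s c < v s a)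
include pt dn up dw

theorem ext1 {l : List (G × G)} (h : Ok v l) (x : G) : ∃ z, Ok v ((x, z) :: l) := by
  have A0 : ∀ l : List (G × G), ∃ lo, ∀ s, ∀ q ∈ l, v s lo < v s q.2 := fun l => by
    induction l with
    | nil => exact ⟨x, by simp⟩
    | cons p l ih =>
      obtain ⟨lo, k⟩ := ih
      obtain ⟨a, ha⟩ := dw p.2
      obtain ⟨c, hc⟩ := pt lo a lo a
      exact ⟨c, fun s q hq => by have := k s; have := ha s; have := hc s; grind⟩
  have A : ∀ l' ⊆ l, ∃ lo, ∀ s, (∀ p ∈ l', v s p.1 < v s x → v s p.2 ≤ v s lo) ∧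
      ∀ q ∈ l, v s x < v s q.1 → v s lo < v s q.2 := fun l' => by
    induction l' with
    | nil => exact fun _ => (A0 l).imp fun lo k s => ⟨by simp, fun q hq _ => k s q hq⟩
    | cons p l' ih =>
      intro hl
      obtain ⟨lo, k⟩ := ih fun _ a => hl (List.mem_cons_of_mem _ a)
      obtain ⟨m, hm⟩ := pt lo p.2 p.2 lo
      obtain ⟨c, hc⟩ := pt p.1 x m lo
      refine ⟨c, fun s => ?_⟩
      have := k s; have := hm s; have := hc s
      have := fun q hq => h p (hl List.mem_cons_self) q hq s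
      grind
  obtain ⟨lo, hlo⟩ := A l (List.Subset.refl _)
  have B : ∀ l' ⊆ l, ∃ hi, ∀ s, v s lo < v s hi ∧ ∀ q ∈ l', v s x < v s q.1 → v s hi ≤ v s q.2 := fun l' => by
    induction l' with
    | nil => exact fun _ => (up lo).imp fun hi k s => ⟨k s, by simp⟩
    | cons p l' ih =>
      intro hl
      obtain ⟨hi, k⟩ := ih fun _ a => hl (List.mem_cons_of_mem _ a)
      obtain ⟨m, hm⟩ := pt hi p.2 hi p.2
      obtain ⟨c, hc⟩ := pt x p.1 m hi
      refine ⟨c, fun s => ?_⟩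
      have := k s; have := hm s; have := hc s
      have := (hlo s).2 p (hl List.mem_cons_self)
      grind
  obtain ⟨hi, hhi⟩ := B l (List.Subset.refl _)
  obtain ⟨z0, hz⟩ := dn lo hi
  have C : ∀ l' ⊆ l, ∃ z, ∀ s, (∀ p ∈ l, v s p.1 < v s x → v s p.2 < v s z) ∧
      (∀ p ∈ l, v s x < v s p.1 → v s z < v s p.2) ∧ ∀ p ∈ l', v s x = v s p.1 → v s z = v s p.2 := fun l' => by
    induction l' with
    | nil =>
      refine fun _ => ⟨z0, fun s => ?_⟩
      have := hlo s; have := hhi s; have := hz s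
      grind
    | cons p l' ih =>
      intro hl
      obtain ⟨z, k⟩ := ih fun _ a => hl (List.mem_cons_of_mem _ a)
      obtain ⟨m, hm⟩ := pt p.1 x z p.2
      obtain ⟨c, hc⟩ := pt x p.1 z m
      refine ⟨c, fun s => ?_⟩
      have := k s; have := hm s; have := hc s
      have := fun q hq => h p (hl List.mem_cons_self) q hq s
      have := fun q hq => h q hq p (hl List.mem_cons_self) s
      have := fun q (hq : q ∈ l') => hl (List.mem_cons_of_mem _ hq)
      grind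
  obtain ⟨z, hz⟩ := C l (List.Subset.refl _)
  refine ⟨z, fun p hp q hq s => ?_⟩
  have := hz s
  have := fun p hp q hq => h p hp q hq s
  rcases List.mem_cons.1 hp with rfl | hp <;> rcases List.mem_cons.1 hq with rfl | hq <;> grind

theorem ext2 {l : List (G × G)} (h : Ok v l) (z : G) : ∃ x, Ok v ((x, z) :: l) := by
  have sw : ∀ l : List (G × G), Ok v l → Ok v (l.map Prod.swap) := fun l h p hp q hq s => by
    obtain ⟨p, a, rfl⟩ := List.mem_map.1 hp
    obtain ⟨q, b, rfl⟩ := List.mem_map.1 hq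
    exact (h p a q b s).symm
  obtain ⟨x, k⟩ := ext1 v pt dn up dw (sw l h) z
  exact ⟨x, by simpa using sw _ k⟩

theorem bf [Countable G] [Nonempty G] (sp : ∀ x y, (∀ s, v s x = v s y) → x = y) {l : List (G × G)}
    (h : Ok v l) : ∃ F : G ≃ G, (∀ s x y, v s x < v s y ↔ v s (F x) < v s (F y)) ∧ ∀ p ∈ l, F p.1 = p.2 := by
  obtain ⟨e, he⟩ := exists_surjective_nat G
  have st : ∀ (n : ℕ) (l : {l // Ok v l}), ∃ l' : {l // Ok v l}, l.1 ⊆ l'.1 ∧ (∃ z, (e n, z) ∈ l'.1) ∧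
      ∃ x, (x, e n) ∈ l'.1 := fun n l => by
    obtain ⟨z, k⟩ := ext1 v pt dn up dw l.2 (e n)
    obtain ⟨x, k'⟩ := ext2 v pt dn up dw k (e n)
    exact ⟨⟨_, k'⟩, fun _ a => by simp [a], ⟨z, by simp⟩, x, by simp⟩
  choose f f1 f2 f3 using st
  let S : ℕ → {l // Ok v l} := fun n => Nat.rec ⟨l, h⟩ f n
  have mono : Monotone fun n => {p | p ∈ (S n).1} := monotone_nat_of_le_succ fun n _ a => f1 n _ a
  have ok : ∀ p q, (∃ n, p ∈ (S n).1) → (∃ n, q ∈ (S n).1) → ∀ s, v s p.1 < v s q.1 ↔ v s p.2 < v s q.2 :=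
    fun p q ⟨n, a⟩ ⟨m, b⟩ => (S (max n m)).2 p (mono (le_max_left _ _) a) q (mono (le_max_right _ _) b)
  have t1 : ∀ x, ∃ z n, (x, z) ∈ (S n).1 := fun x => by
    obtain ⟨n, rfl⟩ := he x
    obtain ⟨z, k⟩ := f2 n (S n)
    exact ⟨z, n + 1, k⟩
  choose F hF using t1
  have fn : ∀ p, (∃ n, p ∈ (S n).1) → F p.1 = p.2 := fun p a => sp _ _ fun s => by
    have := ok _ _ a (hF p.1) s
    have := ok _ _ (hF p.1) a s
    grind
  refine ⟨Equiv.ofBijective F ⟨fun x y k => sp _ _ fun s => ?_, fun z => ?_⟩,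
    fun s x y => ok _ _ (hF x) (hF y) s, fun p a => fn p ⟨0, a⟩⟩
  · have := ok _ _ (hF x) (hF y) s
    have := ok _ _ (hF y) (hF x) s
    grind
  · obtain ⟨n, rfl⟩ := he z
    obtain ⟨x, k⟩ := f3 n (S n)
    exact ⟨x, fn _ ⟨n + 1, k⟩⟩

end Pool.Agent.H.MP_3dd297_al
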