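import Pool.Agent.H.MP_3dd297_al.A

set_option autoImplicit false
open Filter

namespace Pool.Agent.H.MP_3dd297_al

/-- Deviation of the value at a child from the scaled value at the parent. -/
def dl (g : List ℕ → ℤ) (s : List ℕ) (n : ℕ) : ℤ := g (n :: s) - 4 ^ (n + 1) * g s

/-- `g` is flat off the finite subtree `S`, and deviations eventually double. -/
structure In (g : List ℕ → ℤ) (S : Set (List ℕ)) : Prop where
  fi : S.Finite
  tl : ∀ n s, n :: s ∈ S → s ∈ S
  fl : ∀ s ∉ S, ∀ n, dl g s n = 0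
  db : ∀ s, ∀ᶠ n in atTop, dl g s (n + 1) = 2 * dl g s n

/-- The group. -/
def GG : AddSubgroup (List ℕ → ℤ) where
  carrier := {g | ∃ S, In g S}
  zero_mem' := ⟨∅, Set.finite_empty, by simp, by simp [dl], by simp [dl]⟩
  add_mem' := fun {a b} ⟨S, h⟩ ⟨T, k⟩ => ⟨S ∪ T, h.fi.union k.fi, fun n s x => x.imp (h.tl n s) (k.tl n s),
    fun s hs n => by
      have := h.fl s (fun x => hs (.inl x)) n
      have := k.fl s (fun x => hs (.inr x)) n
      simp only [dl, Pi.add_apply] at *; linarith,
    fun s => by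
      filter_upwards [h.db s, k.db s] with n x y
      simp only [dl, Pi.add_apply] at *; linarith⟩
  neg_mem' := fun {a} ⟨S, h⟩ => ⟨S, h.fi, h.tl, fun s hs n => by
      have := h.fl s hs n
      simp only [dl, Pi.neg_apply] at *; linarith,
    fun s => by
      filter_upwards [h.db s] with n x
      simp only [dl, Pi.neg_apply] at *; linarith⟩

/-- Eventual positivity at the children. -/
def pos (s : List ℕ) (g : List ℕ → ℤ) : Prop := ∀ᶠ n in atTop, 0 < g (n :: s)

theorem nf {g : List ℕ → ℤ} (h : g ∈ GG) (s : List ℕ) :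
    ∃ M b, ∀ n, g ((M + n) :: s) = 2 ^ n * (2 ^ (2 * M + 2 + n) * g s + b) := by
  obtain ⟨S, h⟩ := h
  obtain ⟨M, k⟩ := eventually_atTop.1 (h.db s)
  have : ∀ n, dl g s (M + n) = 2 ^ n * dl g s M := fun n => by
    induction n with
    | zero => simp
    | succ n ih => rw [← add_assoc, k _ (by omega), ih]; ring
  refine ⟨M, dl g s M, fun n => ?_⟩
  have e : (4 : ℤ) ^ (M + n + 1) = 2 ^ n * 2 ^ (2 * M + 2 + n) := by
    rw [show (4 : ℤ) = 2 ^ 2 by norm_num, ← pow_mul, ← pow_add]; congr 1; ring
  have := this n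
  rw [dl, e] at this
  linear_combination this

theorem ev {P : ℕ → Prop} (M K : ℕ) (h : ∀ n ≥ K, P (M + n)) : ∀ᶠ n in atTop, P n :=
  eventually_atTop.2 ⟨M + K, fun n hn => by
    obtain ⟨k, rfl⟩ := Nat.exists_eq_add_of_le (show M ≤ n by omega)
    exact h k (by omega)⟩

theorem pos_of {g : List ℕ → ℤ} (h : g ∈ GG) {s : List ℕ} (p : 0 < g s) : pos s g := by
  obtain ⟨M, b, k⟩ := nf h s
  refine ev M b.natAbs fun n hn => ?_
  rw [k]
  refine mul_pos (by positivity) ?_
  have h1 : ((2 * M + 2 + n : ℕ) : ℤ) < 2 ^ (2 * M + 2 + n) := by exact_mod_cast Nat.lt_two_pow_self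
  have h2 : (2 : ℤ) ^ (2 * M + 2 + n) ≤ 2 ^ (2 * M + 2 + n) * g s := le_mul_of_one_le_right (by positivity) p
  omega

theorem tri {g : List ℕ → ℤ} (h : g ∈ GG) (s : List ℕ) :
    pos s g ∨ pos s (-g) ∨ ∀ᶠ n in atTop, g (n :: s) = 0 := by
  rcases lt_trichotomy 0 (g s) with p | p | p
  · exact .inl (pos_of h p)
  · obtain ⟨M, b, k⟩ := nf h s
    simp only [← p, mul_zero, zero_add] at k
    rcases lt_trichotomy 0 b with q | q | q
    · exact .inl (ev M 0 fun n _ => by rw [k]; positivity)
    · exact .inr (.inr (ev M 0 fun n _ => by simp [k, ← q]))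
    · exact .inr (.inl (ev M 0 fun n _ => by
        rw [Pi.neg_apply, k, ← mul_neg]; exact mul_pos (by positivity) (by omega)))
  · exact .inr (.inl (pos_of (neg_mem h) (by simpa using p)))

theorem np {g : List ℕ → ℤ} (h : g ∈ GG) {s : List ℕ} (p : ¬ pos s g) : ∀ᶠ n in atTop, g (n :: s) ≤ 0 := by
  rcases tri h s with k | k | k
  · exact (p k).elim
  · exact k.mono fun n x => by simpa using x.le
  · exact k.mono fun n x => x.le

theorem In.out {g : List ℕ → ℤ} {S : Set (List ℕ)} (h : In g S) (s : List ℕ) : ∀ᶠ n in atTop, n :: s ∉ S := by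
  rw [← Nat.cofinite_eq_atTop, eventually_cofinite]
  simp only [not_not]
  exact h.fi.preimage (f := fun n => n :: s) fun a _ b _ e => by simpa using e

theorem In.ps {g : List ℕ → ℤ} {S : Set (List ℕ)} (h : In g S) {s : List ℕ} (hs : s ∉ S) :
    pos s g ↔ 0 < g s := by
  refine ⟨fun p => ?_, pos_of ⟨S, h⟩⟩
  obtain ⟨n, k⟩ := p.exists
  have := h.fl s hs n
  rw [dl, sub_eq_zero] at this
  rw [this] at k
  exact (mul_pos_iff_of_pos_left (by positivity)).1 k

theorem lim {g : List ℕ → ℤ} (h : g ∈ GG) (s : List ℕ) : ∀ᶠ n in atTop, (pos (n :: s) g ↔ pos s g) := by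
  obtain ⟨S, k⟩ := id h
  by_cases p : pos s g
  · filter_upwards [k.out s, p] with n x y
    simp [k.ps x, y, p]
  · filter_upwards [k.out s, np h p] with n x y
    simp [k.ps x, y, p]

open Classical in
theorem patch {d a b : List ℕ → ℤ} (hd : d ∈ GG) (ha : a ∈ GG) (hb : b ∈ GG) :
    (fun t => if pos t d then a t else b t) ∈ GG := by
  obtain ⟨S, k⟩ := id hd
  obtain ⟨A, ka⟩ := id ha
  obtain ⟨B, kb⟩ := id hb
  refine ⟨S ∪ (A ∪ B), k.fi.union (ka.fi.union kb.fi),
    fun n s x => x.imp (k.tl n s) (Or.imp (ka.tl n s) (kb.tl n s)), fun s hs n => ?_, fun s => ?_⟩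
  · have h1 : s ∉ S := fun x => hs (.inl x)
    have e : pos (n :: s) d ↔ pos s d := by
      have := k.fl s h1 n
      rw [dl, sub_eq_zero] at this
      rw [k.ps h1, k.ps fun x => h1 (k.tl _ _ x), this]
      exact mul_pos_iff_of_pos_left (by positivity)
    have := ka.fl s (fun x => hs (.inr (.inl x))) n
    have := kb.fl s (fun x => hs (.inr (.inr x))) n
    simp only [dl, e] at *
    split_ifs <;> assumption
  · filter_upwards [lim hd s, (tendsto_add_atTop_nat 1).eventually (lim hd s), ka.db s, kb.db s] with n x y z w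
    simp only [dl, x, y] at *
    split_ifs <;> assumption

theorem fin {S Z : Set (List ℕ)} (h : S.Finite) (h1 : ∀ s ∉ S, ∀ n, n :: s ∉ Z)
    (h2 : ∀ s, ∀ᶠ n in atTop, n :: s ∉ Z) : Z.Finite := by
  refine ((h.biUnion (t := fun s => (fun n => n :: s) '' {n | n :: s ∈ Z}) fun s _ => ?_).insert []).subset
    fun t ht => ?_
  · have := h2 s
    rw [← Nat.cofinite_eq_atTop, eventually_cofinite] at this
    exact Set.Finite.image _ (by simpa using this)
  · rcases t with _ | ⟨n, s⟩
    · simp
    · exact .inr (Set.mem_biUnion (by_contra fun x => h1 s x n ht) ⟨n, ht, rfl⟩)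

/-- Second deviation. -/
def ep (g : List ℕ → ℤ) : List ℕ → ℤ
  | [] => g []
  | 0 :: s => dl g s 0
  | (n + 1) :: s => dl g s (n + 1) - 2 * dl g s n

instance : Countable GG := by
  have f : ∀ g : GG, (Function.support (ep g.1)).Finite := fun ⟨g, S, h⟩ => by
    refine fin h.fi (fun s hs n => ?_) fun s => ?_
    · cases n <;> simp [ep, h.fl s hs]
    · refine (eventually_atTop.1 (h.db s)).elim fun M k => ev (M + 1) 0 fun n _ => ?_
      rw [show M + 1 + n = M + n + 1 by ring]
      simp [ep, k]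
  refine Function.Injective.countable (f := fun g : GG => Finsupp.ofSupportFinite _ (f g)) fun a b e => ?_
  have e : ∀ t, ep a.1 t = ep b.1 t := fun t => congrArg (· t) e
  have d : ∀ s n, dl a.1 s n = dl b.1 s n := fun s n => by
    induction n with
    | zero => exact e (0 :: s)
    | succ n ih => have := e ((n + 1) :: s); simp only [ep] at this; linarith
  ext t
  induction t with
  | nil => exact e []
  | cons n s ih => have := d s n; simp only [dl, ih] at this; linarith

/-- The unit. -/
def U : List ℕ → ℤ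
  | [] => 1
  | n :: s => 4 ^ (n + 1) * U s

theorem U_pos : ∀ s, 0 < U s
  | [] => one_pos
  | _ :: s => mul_pos (by positivity) (U_pos s)

theorem U_mem : U ∈ GG := ⟨∅, Set.finite_empty, by simp, by simp [dl, U], by simp [dl, U]⟩

/-- A small positive element. -/
def W (N : List ℕ → ℕ) : List ℕ → ℤ
  | [] => 0
  | n :: s => if W N s = 0 then (if n < N s then 0 else 2 ^ (n - N s)) else 4 ^ (n + 1) * W N s

theorem small {d : List ℕ → ℤ} (hd : d ∈ GG) : ∃ w ∈ GG, ∀ s, pos s w ∧ (pos s d → pos s (d - w)) := by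
  obtain ⟨S, k⟩ := id hd
  have A : ∀ s, ∃ N, (s ∉ S → N = 0) ∧ ∀ n ≥ N, n :: s ∉ S ∧ (0 < d (n :: s) → 2 ^ (n - N) < d (n :: s)) :=
    fun s => by
    by_cases hs : s ∈ S
    · obtain ⟨M, b, e⟩ := nf hd s
      obtain ⟨K, o⟩ := eventually_atTop.1 (k.out s)
      refine ⟨M + K + 1, by simp [hs], fun n hn => ⟨o n (by omega), fun p => ?_⟩⟩
      obtain ⟨j, rfl⟩ := Nat.exists_eq_add_of_le (show M ≤ n by omega)
      rw [e] at p ⊢
      exact (pow_lt_pow_right₀ one_lt_two (by omega)).trans_le
        (le_mul_of_one_le_right (by positivity) ((mul_pos_iff_of_pos_left (by positivity)).1 p))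
    · refine ⟨0, by simp, fun n _ => ⟨fun x => hs (k.tl _ _ x), fun p => ?_⟩⟩
      have := k.fl s hs n
      rw [dl, sub_eq_zero] at this
      rw [this] at p ⊢
      refine lt_of_lt_of_le ?_ (le_mul_of_one_le_right (by positivity)
        ((mul_pos_iff_of_pos_left (by positivity)).1 p))
      exact (pow_lt_pow_right₀ one_lt_two (by omega)).trans_le (pow_le_pow_left₀ zero_le_two (by norm_num) _)
  choose N N0 N1 using A
  have nn : ∀ s, 0 ≤ W N s := fun s => by
    induction s with
    | nil => rfl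
    | cons n s ih => rw [W]; split_ifs <;> positivity
  have mem : W N ∈ GG := by
    refine ⟨{s | W N s = 0}, fin k.fi (fun s hs n => ?_) fun s => ?_, fun n s x => ?_, fun s hs n => ?_, fun s => ?_⟩
    · simp [W, N0 s hs]; split_ifs with x <;> simp [x]
    · filter_upwards [eventually_ge_atTop (N s)] with n hn
      simp [W, hn.not_gt]; split_ifs with x <;> simp [x]
    · by_contra y
      simp_all [W]
    · simp_all [dl, W]
    · filter_upwards [eventually_ge_atTop (N s)] with n hn
      by_cases x : W N s = 0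
      · simp only [dl, W, x, hn.not_gt, show ¬ n + 1 < N s by omega, show n + 1 - N s = n - N s + 1 by omega]
        simp; ring
      · simp [dl, W, x]
  have iv : ∀ s, W N s ≠ 0 → s ∉ S ∧ (0 < d s → W N s < d s) := fun s => by
    induction s with
    | nil => simp [W]
    | cons n s ih =>
      rw [W]
      split_ifs with x y
      · simp
      · exact fun _ => N1 s n (by omega)
      · obtain ⟨a, b⟩ := ih x
        have := k.fl s a n
        rw [dl, sub_eq_zero] at this
        rw [this]
        exact fun _ => ⟨fun z => a (k.tl _ _ z), fun p => mul_lt_mul_of_pos_left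
          (b ((mul_pos_iff_of_pos_left (by positivity)).1 p)) (by positivity)⟩
  refine ⟨W N, mem, fun s => ?_⟩
  by_cases x : W N s = 0
  · refine ⟨?_, fun p => ?_⟩
    · filter_upwards [eventually_ge_atTop (N s)] with n hn
      simp [W, x, hn.not_gt]
    · filter_upwards [eventually_ge_atTop (N s), p] with n hn p
      simpa [W, x, hn.not_gt] using (N1 s n hn).2 p
  · obtain ⟨a, b⟩ := iv s x
    exact ⟨pos_of mem ((nn s).lt_of_ne' x), fun p => pos_of (sub_mem hd mem) (by simpa using b ((k.ps a).1 p))⟩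

/-- Indicator of a cone. -/
def E (m : ℕ) (t : List ℕ) : List ℕ → ℤ
  | [] => 0
  | n :: s => 4 ^ (n + 1) * E m t s + if s = t ∧ n = m then 1 else 0

theorem onto (s : List ℕ) : ∃ g ∈ GG, g s = 1 := by
  rcases s with _ | ⟨m, t⟩
  · exact ⟨U, U_mem, rfl⟩
  have z : ∀ s : List ℕ, s.length ≤ t.length → E m t s = 0 := fun s => by
    induction s with
    | nil => simp [E]
    | cons n s ih =>
      intro h
      have : s ≠ t := by rintro rfl; simp at h
      simp [E, ih (by simp at h; omega), this]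
  refine ⟨E m t, ⟨{s | s ∈ t.tails}, List.finite_toSet _, fun n s x => ?_, fun s hs n => ?_, fun s => ?_⟩,
    by simp [E, z]⟩
  · simp only [Set.mem_ofPred_eq, List.mem_tails] at *
    exact (List.suffix_cons n s).trans x
  · have : s ≠ t := by rintro rfl; simp at hs
    simp [dl, E, this]
  · filter_upwards [eventually_gt_atTop m] with n hn
    simp [dl, E, hn.ne', show n + 1 ≠ m by omega]

end Pool.Agent.H.MP_3dd297_al
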