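import Pool.Agent.H.MP_3dd297_al.B

set_option autoImplicit false
open Filter

namespace Pool.Agent.H.MP_3dd297_al

/-- Germ of the values at the children. -/
noncomputable def vv (s : List ℕ) (g : GG) : Germ (hyperfilter ℕ : Filter ℕ) ℤ := ↑(fun n => g.1 (n :: s))

theorem vv_lt (s : List ℕ) (x y : GG) : vv s x < vv s y ↔ pos s (y.1 - x.1) := by
  rw [vv, vv, Germ.coe_lt]
  refine ⟨fun h => by_contra fun p => ?_, fun p => Eventually.filter_mono Nat.hyperfilter_le_atTop
    (p.mono fun n h => by simpa using h)⟩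
  obtain ⟨n, a, b⟩ := (h.and ((np (sub_mem y.2 x.2) p).filter_mono Nat.hyperfilter_le_atTop)).exists
  simp only [Pi.sub_apply] at b
  omega

theorem vv_eq {s : List ℕ} {x y : GG} (h : ∀ᶠ n in atTop, x.1 (n :: s) = y.1 (n :: s)) : vv s x = vv s y :=
  Germ.coe_eq.2 (h.filter_mono Nat.hyperfilter_le_atTop)

theorem le_vv {x y : GG} : x.1 ≤ y.1 ↔ ∀ s, ¬ vv s y < vv s x := by
  simp only [vv_lt]
  refine ⟨fun h s p => ?_, fun h s => not_lt.1 fun p => h s (pos_of (sub_mem x.2 y.2) (by simpa using p))⟩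
  obtain ⟨n, k⟩ := p.exists
  have : x.1 (n :: s) ≤ y.1 (n :: s) := h (n :: s)
  simp only [Pi.sub_apply] at k
  omega

theorem auto : ∃ F : GG ≃ GG, (∀ x y, x.1 ≤ y.1 ↔ (F x).1 ≤ (F y).1) ∧ F 0 = 0 ∧
    ∃ u, F (u + u) ≠ F u + F u := by
  classical
  let u : GG := ⟨U, U_mem⟩
  have pu : ∀ s, pos s U := fun s => .of_forall fun n => U_pos _
  have lt : ∀ s (a b : ℤ), vv s (a • u) < vv s (b • u) ↔ a < b := fun s a b => by
    rw [vv_lt]
    simp only [pos, u, AddSubgroup.coe_zsmul, Pi.sub_apply, Pi.smul_apply, smul_eq_mul, ← sub_mul,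
      mul_pos_iff_of_pos_right (U_pos _), eventually_const, sub_pos]
  obtain ⟨F, h, k⟩ := bf vv (l := [((0 : ℤ) • u, (0 : ℤ) • u), ((1 : ℤ) • u, (1 : ℤ) • u), ((2 : ℤ) • u, (3 : ℤ) • u)])
    (fun x y a b => ⟨⟨_, patch (sub_mem y.2 x.2) a.2 b.2⟩, fun s => by
      simp only [vv_lt]
      split_ifs with p <;> refine vv_eq ((lim (sub_mem y.2 x.2) s).mono fun n e => ?_) <;> simp [e, p]⟩)
    (fun a b => by
      obtain ⟨w, m, k⟩ := small (sub_mem b.2 a.2)
      refine ⟨a + ⟨w, m⟩, fun s => ?_⟩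
      simp only [vv_lt, AddSubgroup.coe_add, add_sub_cancel_left, ← sub_sub]
      exact fun p => ⟨(k s).1, (k s).2 p⟩)
    (fun a => ⟨a + u, fun s => by simpa [vv_lt] using pu s⟩)
    (fun a => ⟨a - u, fun s => by simpa [vv_lt] using pu s⟩)
    (fun x y e => Subtype.ext (le_antisymm (le_vv.2 fun s => by simp [e]) (le_vv.2 fun s => by simp [e])))
    (fun p hp q hq s => by
      simp only [List.mem_cons, List.not_mem_nil, or_false] at hp hq
      rcases hp with rfl | rfl | rfl <;> rcases hq with rfl | rfl | rfl <;> simp only [lt] <;> decide)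
  refine ⟨F, fun x y => by simp only [le_vv, ← h], by simpa using k _ List.mem_cons_self, u, fun e => ?_⟩
  have a := k ((1 : ℤ) • u, (1 : ℤ) • u) (by simp)
  have b := k ((2 : ℤ) • u, (3 : ℤ) • u) (by simp)
  simp only [one_smul, two_smul] at a b
  rw [a, b] at e
  have := congrArg (fun g : GG => g.1 []) e
  simp [u, U] at this

theorem sup_mem {x y : List ℕ → ℤ} (hx : x ∈ GG) (hy : y ∈ GG) : x ⊔ y ∈ GG := by
  convert patch (sub_mem hy hx) hy hx using 2 with t
  split_ifs with p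
  · refine sup_eq_right.2 (not_lt.1 fun q => ?_)
    obtain ⟨n, a, b⟩ := (p.and (pos_of (sub_mem hx hy) (s := t) (by simpa using q))).exists
    simp only [Pi.sub_apply] at a b
    omega
  · exact sup_eq_left.2 (not_lt.1 fun q => p (pos_of (sub_mem hy hx) (by simpa using q)))

theorem inf_mem {x y : List ℕ → ℤ} (hx : x ∈ GG) (hy : y ∈ GG) : x ⊓ y ∈ GG := by
  have := neg_mem (sup_mem (neg_mem hx) (neg_mem hy))
  rwa [neg_sup, neg_neg, neg_neg] at this

end Pool.Agent.H.MP_3dd297_al
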